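import Pool.Agent.Helper74.RN.St

set_option autoImplicit false

/-!
Module THN of project RN (MP_26f0da_lc).
-/

namespace Pool.Agent.Helper36.RN

open Pool.Agent.Helper74 Pool.Agent.Helper74.RN
open Pool.Agent.Helper74.NM (NC)

theorem hTHN (hFZR : StFZR) : StTHN := by
  intro G R l
  have h1 : (l.map some).filterMap id = l := by
    induction l with
    | nil => rfl
    | cons a l ih => simp
  rw [← hFZR G R l]
  constructor
  · rintro ⟨k, h2, h3⟩
    rw [h1] at h2 h3
    rw [List.length_map] at h3
    have h4 : k = 0 := by omega
    rwa [h4] at h2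
  · intro h
    refine ⟨0, ?_, ?_⟩
    · rw [h1]
      exact h
    · rw [h1, List.length_map]
      omega

end Pool.Agent.Helper36.RN
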